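import Mathlib
import Pool.Agent.Caps.Defs
import Pool.Agent.Caps.Asym
import Pool.Agent.Caps.Transfer
import Pool.Agent.Caps.Cert5
import Pool.Agent.Caps.Cert8
import Pool.Agent.Caps.Cert11
import Pool.Agent.Caps.Cert17

/-! # Growth of caps for `q = 5, 8, 11, 17` -/

namespace Pool.Agent.Results.MP_9c4077_co.GrowthSmallFields

open Filter Pool.Agent.Caps

/-- For `(q,k,s)` one of `(5,3,35)`, `(8,2,20)`, `(11,2,31)`, `(17,2,53)`, every field `F` with
`q` elements and every real number `c` with `0 ≤ c` and `c^k < s`, one has `c^d ≤ m(d,q)` for all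
large `d`. -/
theorem result (q k s : ℕ)
    (h : (q, k, s) = (5, 3, 35) ∨ (q, k, s) = (8, 2, 20) ∨ (q, k, s) = (11, 2, 31) ∨
      (q, k, s) = (17, 2, 53))
    (F : Type) [Field F] [Fintype F] (hq : Fintype.card F = q) (c : ℝ)
    (hc : 0 ≤ c) (hcs : c ^ k < (s : ℝ)) :
    ∀ᶠ d in atTop, c ^ d ≤ (capMax F d : ℝ) := by
  have key : ∀ k' s' : ℕ, 0 < k' → k = k' → s = s' →
      (∃ D : Finset (Fin k' → F), Good F D ∧ D.card = s') →
      ∀ᶠ d in atTop, c ^ d ≤ (capMax F d : ℝ) := by
    rintro k' s' hk' rfl rfl ⟨D, hD, hcard⟩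
    exact good_growth hk' D hD hc (by rw [hcard]; exact hcs)
  rcases h with h | h | h | h
  · simp only [Prod.mk.injEq] at h
    exact key 3 35 (by norm_num) h.2.1 h.2.2
      (good_of_card (F := ZMod 5) (by rw [ZMod.card, hq, h.1]) c5_good)
  · simp only [Prod.mk.injEq] at h
    exact key 2 20 (by norm_num) h.2.1 h.2.2
      (good_of_card (F := F8) (by rw [F8.card_eq, hq, h.1]) c8_good)
  · simp only [Prod.mk.injEq] at h
    exact key 2 31 (by norm_num) h.2.1 h.2.2
      (good_of_card (F := ZMod 11) (by rw [ZMod.card, hq, h.1]) c11_good)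
  · simp only [Prod.mk.injEq] at h
    exact key 2 53 (by norm_num) h.2.1 h.2.2
      (good_of_card (F := ZMod 17) (by rw [ZMod.card, hq, h.1]) c17_good)

end Pool.Agent.Results.MP_9c4077_co.GrowthSmallFields
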