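import Mathlib
import Pool.Agent.Caps.Defs
import Pool.Agent.Caps.Asym
import Pool.Agent.Caps.Quadric

/-! # Caps of growth `(q^2+1)^(1/3)` for every prime power `q = 2 mod 3` -/

namespace Pool.Agent.Results.MP_9c4077_co.GrowthTwoModThree

open Filter Pool.Agent.Caps

/-- For every finite field with `q` elements, `q` congruent to 2 modulo 3, and every real number
`c` with `0 ≤ c` and `c^3 < q^2 + 1`, one has `c^d ≤ m(d,q)` for all large `d`. -/
theorem result (F : Type) [Field F] [Fintype F] (hq : Fintype.card F % 3 = 2) (c : ℝ)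
    (hc : 0 ≤ c) (hcq : c ^ 3 < (Fintype.card F : ℝ) ^ 2 + 1) :
    ∀ᶠ d in atTop, c ^ d ≤ (capMax F d : ℝ) := by
  obtain ⟨D, hD, hcard⟩ := quadric_good (F := F) (by omega) (by omega)
  refine good_growth (by norm_num) D hD hc ?_
  rw [hcard]
  push_cast
  exact hcq

end Pool.Agent.Results.MP_9c4077_co.GrowthTwoModThree
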