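import Mathlib
import Pool.Agent.Caps.Defs
import Pool.Agent.CapHalf.All
import Pool.Agent.CapHalf.AffC

/-!
# Caps in `PG(d, q)` and `AG(d, q)`, `d ≥ 4`

`m(d,q) ≤ q^(d-1)/2 + 3 q^(d-2)`, and `|A| ≤ q^d / (2 q + d - 17)` for caps `A` of `AG(d,q)`.
-/

namespace Pool.Agent.Results.MP_9c4077_co.HalfBound

open Pool.Agent.Caps

/-- For every `d ≥ 4` and every finite field with `q ≥ 3` elements: every cap `K` in `PG(d,q)` satisfies
`|K| ≤ q^(d-1)/2 + 3 q^(d-2)` and `(q - 1) (2 q + d - 17) |K| ≤ q^(d+1)`, so the same holds for `m(d,q)`,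
and every cap `A` in `AG(d,q)` satisfies `(2 q + d - 17) |A| ≤ q^d`. -/
theorem result (F : Type) [Field F] [Fintype F] (hq : 3 ≤ Fintype.card F) (d : ℕ) (hd : 4 ≤ d) :
    (∀ K : Finset (Projectivization F (Fin (d + 1) → F)), IsCap F d K →
      2 * K.card ≤ Fintype.card F ^ (d - 1) + 6 * Fintype.card F ^ (d - 2) ∧
      ((Fintype.card F : ℤ) - 1) * (2 * (Fintype.card F : ℤ) + d - 17) * K.card ≤
        (Fintype.card F : ℤ) ^ (d + 1)) ∧
    2 * capMax F d ≤ Fintype.card F ^ (d - 1) + 6 * Fintype.card F ^ (d - 2) ∧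
    ((Fintype.card F : ℤ) - 1) * (2 * (Fintype.card F : ℤ) + d - 17) * capMax F d ≤
      (Fintype.card F : ℤ) ^ (d + 1) ∧
    ∀ A : Finset (Fin d → F), IsAffineCap F A →
      (2 * (Fintype.card F : ℤ) + d - 17) * A.card ≤ (Fintype.card F : ℤ) ^ d := by
  have h1 : ∀ K : Finset (Projectivization F (Fin (d + 1) → F)), IsCap F d K →
      2 * K.card ≤ Fintype.card F ^ (d - 1) + 6 * Fintype.card F ^ (d - 2) := by
    obtain ⟨e, rfl⟩ : ∃ e, d = e + 4 := ⟨d - 4, by omega⟩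
    exact fun K hK => Pool.Agent.CapHalf.capBound F hq e K hK
  have h2 : ∀ K : Finset (Projectivization F (Fin (d + 1) → F)), IsCap F d K →
      ((Fintype.card F : ℤ) - 1) * (2 * (Fintype.card F : ℤ) + d - 17) * K.card ≤
        (Fintype.card F : ℤ) ^ (d + 1) :=
    fun K hK => Pool.Agent.CapHalf.projBoundZ hq hd K hK
  obtain ⟨K, hK, hKc⟩ : ∃ K : Finset (Projectivization F (Fin (d + 1) → F)), IsCap F d K ∧
      K.card = capMax F d := by
    have h3 : capMax F d ∈ {m | ∃ K : Finset (Projectivization F (Fin (d + 1) → F)),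
        IsCap F d K ∧ K.card = m} := by
      refine Nat.sSup_mem ⟨0, ∅, ?_, Finset.card_empty⟩
        ⟨Fintype.card F ^ (d - 1) + 6 * Fintype.card F ^ (d - 2), ?_⟩
      · intro W _
        simp
      · rintro m ⟨K, hK, rfl⟩
        have := h1 K hK
        omega
    exact h3
  refine ⟨fun K hK => ⟨h1 K hK, h2 K hK⟩, ?_, ?_, fun A hA =>
    Pool.Agent.CapHalf.affBoundZ hq hd A hA⟩
  · rw [← hKc]
    exact h1 K hK
  · rw [← hKc]
    exact h2 K hK

end Pool.Agent.Results.MP_9c4077_co.HalfBound
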