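import Mathlib
import Pool.Agent.Caps.Defs
import Pool.Agent.CapFive.Spec
import Pool.Agent.CapFive.Conv
import Pool.Agent.CapFive.Prod
import Pool.Agent.CapThree.Spec
import Pool.Agent.CapThree.Key
import Pool.Agent.CapThree.Ell
import Pool.Agent.CapThree.Cap
import Pool.Agent.CapThree.Quot
import Pool.Agent.CapThree.J
import Pool.Agent.CapThree.G
import Pool.Agent.CapThree.XC
import Pool.Agent.CapThree.IE
import Pool.Agent.CapThree.Y
import Pool.Agent.CapThree.Half
import Pool.Agent.CapThree.XA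
import Pool.Agent.CapThree.Tot
import Pool.Agent.CapThree.Dat
import Pool.Agent.CapThree.AvK
import Pool.Agent.CapThree.Av
import Pool.Agent.CapThree.Four

/-! # Caps with about `3 q^2` points in `PG(4, q)`, `q` odd -/

namespace Pool.Agent.Results.MP_9c4077_co.ThreeQSquared

open Pool.Agent.Caps

/-- Let `F` be a finite field with `q` elements, `q` odd, `q ≥ 13`, and let `s` be a natural number. Then `PG(3s+4,q)`
contains a cap with at least `q^(2s) (3 q^2 - 6 q - 16)` points, so `m(3s+4,q)` is at least this number; the case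
`s = 0` is `PG(4,q)`. -/
theorem result (F : Type) [Field F] [Fintype F] (hodd : Odd (Fintype.card F))
    (hq : 13 ≤ Fintype.card F) (s : ℕ) :
    (∃ K : Finset (Projectivization F (Fin (3 * s + 4 + 1) → F)), IsCap F (3 * s + 4) K ∧
      (Fintype.card F : ℤ) ^ (2 * s) *
        (3 * (Fintype.card F : ℤ) ^ 2 - 6 * (Fintype.card F : ℤ) - 16) ≤ (K.card : ℤ)) ∧
    (Fintype.card F : ℤ) ^ (2 * s) *
        (3 * (Fintype.card F : ℤ) ^ 2 - 6 * (Fintype.card F : ℤ) - 16) ≤
      (capMax F (3 * s + 4) : ℤ) :=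
  Pool.Agent.CapThree.main Pool.Agent.CapFive.tConv Pool.Agent.CapFive.tProd
    (Pool.Agent.CapThree.tFour
      (Pool.Agent.CapThree.tCap Pool.Agent.CapThree.tKey Pool.Agent.CapThree.tEll)
      Pool.Agent.CapThree.tQuot
      (Pool.Agent.CapThree.tXC (Pool.Agent.CapThree.tG Pool.Agent.CapThree.tJ))
      (Pool.Agent.CapThree.tTot
        (Pool.Agent.CapThree.tXC (Pool.Agent.CapThree.tG Pool.Agent.CapThree.tJ))
        Pool.Agent.CapThree.tIE
        (Pool.Agent.CapThree.tY (Pool.Agent.CapThree.tG Pool.Agent.CapThree.tJ)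
          Pool.Agent.CapThree.tIE)
        Pool.Agent.CapThree.tHalf Pool.Agent.CapThree.tXA)
      Pool.Agent.CapThree.tDat
      (Pool.Agent.CapThree.tAv (Pool.Agent.CapThree.tAvK Pool.Agent.CapThree.tJ)))
    F hodd hq s

end Pool.Agent.Results.MP_9c4077_co.ThreeQSquared
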